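import Pool.Agent.H422R3.C6Final

set_option autoImplicit false

/-!
The ratio `c_{6,k} / d_{6,k}` does not tend to `1` as `k → ∞`: it is at least `21/20` for `k = q ^ 3`
with `q` a large prime.
-/

open Filter Topology
open scoped ENNReal

namespace Pool.Agent.Results.MP_84a9df_co.RatioNotOne

/-- The graph `G` contains a cycle whose length is congruent to `l` modulo `k`. -/
def HasCycleMod {n : ℕ} (G : SimpleGraph (Fin n)) (l k : ℕ) : Prop :=
  ∃ (v : Fin n) (p : G.Walk v v), p.IsCycle ∧ p.length ≡ l [MOD k]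

/-- For every `n ≥ 1`, every graph on `n` vertices with average degree at least `c`, that is, with at
least `c n / 2` edges, contains a cycle of length `l` modulo `k`. -/
def Forces (l k : ℕ) (c : ℝ) : Prop :=
  ∀ n : ℕ, 1 ≤ n → ∀ G : SimpleGraph (Fin n), c * n / 2 ≤ (G.edgeSet.ncard : ℝ) → HasCycleMod G l k

/-- `c_{l,k}`: the least real constant with `Forces l k`, as an infimum in `[0, ∞]`
(all such constants are positive, see `Forces.pos`). -/
noncomputable def cConst (l k : ℕ) : ℝ≥0∞ := sInf {x | ∃ c : ℝ, Forces l k c ∧ x = ENNReal.ofReal c}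

/-- `d_{l,k}`: the maximum average degree of a graph on exactly `k` vertices containing no cycle of
length exactly `l`. -/
noncomputable def dConst (l k : ℕ) : ℝ :=
  sSup {x | ∃ H : SimpleGraph (Fin k), (¬ ∃ (v : Fin k) (p : H.Walk v v), p.IsCycle ∧ p.length = l) ∧
    x = 2 * (H.edgeSet.ncard : ℝ) / k}

theorem Forces.pos {l k : ℕ} {c : ℝ} (h : Forces l k c) : 0 < c := by
  by_contra hc
  push Not at hc
  obtain ⟨v, p, hp, -⟩ := h 1 le_rfl ⊥ (by
    have : (0 : ℝ) ≤ ((⊥ : SimpleGraph (Fin 1)).edgeSet.ncard : ℝ) := by positivity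
    push_cast
    linarith)
  have h3 := hp.three_le_length
  have hadj := p.adj_getVert_succ (i := 0) (by omega)
  simp at hadj

lemma d_set_finite (l k : ℕ) :
    {x : ℝ | ∃ H : SimpleGraph (Fin k),
      (¬ ∃ (v : Fin k) (p : H.Walk v v), p.IsCycle ∧ p.length = l) ∧
      x = 2 * (H.edgeSet.ncard : ℝ) / k}.Finite := by
  refine (Set.finite_range fun H : SimpleGraph (Fin k) => 2 * (H.edgeSet.ncard : ℝ) / k).subset ?_
  rintro x ⟨H, -, rfl⟩
  exact ⟨H, rfl⟩

lemma edge_mem (l k : ℕ) (hl : 3 ≤ l) (hk : 2 ≤ k) :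
    (2 : ℝ) / k ∈ {x : ℝ | ∃ H : SimpleGraph (Fin k),
      (¬ ∃ (v : Fin k) (p : H.Walk v v), p.IsCycle ∧ p.length = l) ∧
      x = 2 * (H.edgeSet.ncard : ℝ) / k} := by
  have hne : (⟨0, by omega⟩ : Fin k) ≠ ⟨1, by omega⟩ := by simp
  set e : Sym2 (Fin k) := s(⟨0, by omega⟩, ⟨1, by omega⟩) with he
  have hes : (SimpleGraph.fromEdgeSet {e}).edgeSet = {e} := by
    rw [SimpleGraph.edgeSet_fromEdgeSet]
    ext x
    simp only [Set.mem_sdiff, Set.mem_singleton_iff]
    constructor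
    · exact fun h => h.1
    · rintro rfl
      exact ⟨rfl, fun h => hne (Sym2.mk_isDiag_iff.1 h)⟩
  refine ⟨SimpleGraph.fromEdgeSet {e}, ?_, ?_⟩
  · rintro ⟨v, p, hp, hpl⟩
    have h1 : p.edges.Nodup := hp.edges_nodup
    have h2 : p.edges.length = l := by rw [SimpleGraph.Walk.length_edges, hpl]
    have h3 : ∀ x ∈ p.edges, x = e := by
      intro x hx
      have := p.edges_subset_edgeSet hx
      rw [hes] at this
      exact this
    rcases hh : p.edges with _ | ⟨a, _ | ⟨b, t⟩⟩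
    · rw [hh] at h2; simp at h2; omega
    · rw [hh] at h2; simp at h2; omega
    · rw [hh] at h1 h3
      have ha := h3 a (by simp)
      have hb := h3 b (by simp)
      rw [ha, hb] at h1
      simp at h1
  · rw [hes, Set.ncard_singleton]; norm_num

/-- `d_{l,k}` is a maximum. -/
theorem dConst_isGreatest (l k : ℕ) (hl : 3 ≤ l) (hk : 2 ≤ k) :
    IsGreatest {x : ℝ | ∃ H : SimpleGraph (Fin k),
      (¬ ∃ (v : Fin k) (p : H.Walk v v), p.IsCycle ∧ p.length = l) ∧
      x = 2 * (H.edgeSet.ncard : ℝ) / k} (dConst l k) :=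
  (d_set_finite l k).isCompact.isGreatest_sSup ⟨_, edge_mem l k hl hk⟩

/-- For infinitely many `k` every constant `c` that forces a cycle of length `6` modulo `k` is at
least `21/20 · d_{6,k}`; hence it is not true that `c_{l,k} / d_{l,k} → 1` for all even `l ≥ 4`. -/
theorem result :
    (∀ K : ℕ, ∃ k : ℕ, K ≤ k ∧ 6 < k ∧ 0 < dConst 6 k ∧
      ∀ c : ℝ, Forces 6 k c → 21 / 20 * dConst 6 k ≤ c) ∧
    ¬ Tendsto (fun k : ℕ => cConst 6 k / ENNReal.ofReal (dConst 6 k)) atTop (𝓝 1) ∧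
    ¬ ∀ l : ℕ, Even l → 4 ≤ l →
      Tendsto (fun k : ℕ => cConst l k / ENNReal.ofReal (dConst l k)) atTop (𝓝 1) := by
  have h1 : ∀ K : ℕ, ∃ k : ℕ, K ≤ k ∧ 6 < k ∧ 0 < dConst 6 k ∧
      ∀ c : ℝ, Forces 6 k c → 21 / 20 * dConst 6 k ≤ c := by
    intro K
    obtain ⟨q, hqK, hq⟩ := Nat.exists_infinite_primes (max K 4000000)
    have hq4 : 4000000 ≤ q := le_trans (le_max_right _ _) hqK
    have hqK' : K ≤ q := le_trans (le_max_left _ _) hqK
    have hqq : q ≤ q ^ 3 := Nat.le_self_pow (by norm_num) q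
    have hg := dConst_isGreatest 6 (q ^ 3) (by norm_num) (by omega)
    refine ⟨q ^ 3, hqK'.trans hqq, by omega, ?_, ?_⟩
    · have h2 := hg.2 (edge_mem 6 (q ^ 3) (by norm_num) (by omega))
      have h3 : (0 : ℝ) < 2 / ((q ^ 3 : ℕ) : ℝ) := by
        have : 0 < q ^ 3 := by omega
        have : (0 : ℝ) < ((q ^ 3 : ℕ) : ℝ) := by exact_mod_cast this
        positivity
      exact lt_of_lt_of_le h3 h2
    · intro c hc
      have hlow := H422R3.C6.lower hq (by omega) hc
      obtain ⟨H, hH, hHe⟩ := hg.1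
      have hup := H422R3.C6.upper hq4 H hH
      rw [← hHe] at hup
      have : (0 : ℝ) ≤ q := by positivity
      linarith
  have h2 : ¬ Tendsto (fun k : ℕ => cConst 6 k / ENNReal.ofReal (dConst 6 k)) atTop (𝓝 1) := by
    intro hT
    have hlt : (1 : ℝ≥0∞) < ENNReal.ofReal (21 / 20) := by
      rw [← ENNReal.ofReal_one]
      exact (ENNReal.ofReal_lt_ofReal_iff (by norm_num)).2 (by norm_num)
    have h3 := hT.eventually (gt_mem_nhds hlt)
    rw [eventually_atTop] at h3
    obtain ⟨K, hK⟩ := h3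
    obtain ⟨k, hk, -, hd, hc⟩ := h1 K
    have h4 := hK k hk
    refine absurd h4 (not_lt.2 ?_)
    rw [ENNReal.le_div_iff_mul_le (Or.inl (by
      rw [Ne, ENNReal.ofReal_eq_zero]; exact not_le.2 hd)) (Or.inl ENNReal.ofReal_ne_top),
      ← ENNReal.ofReal_mul (by norm_num)]
    refine le_sInf ?_
    rintro x ⟨c, hc', rfl⟩
    exact ENNReal.ofReal_le_ofReal (hc c hc')
  exact ⟨h1, h2, fun h => h2 (h 6 (by decide) (by norm_num))⟩

end Pool.Agent.Results.MP_84a9df_co.RatioNotOne
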